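import Pool.Agent.Helper51K9.UC.Rat

/-!
# From relations to the constant
-/

set_option autoImplicit false
set_option linter.unusedSectionVars false

namespace Pool.Agent.Helper51K9.UC

open Matrix Polynomial Filter Topology Pool.Agent.R389 Pool.Agent.H541R3.ART TI

/-- a subgroup of `ℤ` with elements prime to every prime number -/
theorem one_mem_int (H : AddSubgroup ℤ) (h : ∀ l : ℕ, l.Prime → ∃ d : ℕ, (d : ℤ) ∈ H ∧ ¬ l ∣ d) :
    (1 : ℤ) ∈ H := by
  obtain ⟨a, ha⟩ := Int.subgroup_cyclic H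
  have hmem : ∀ x : ℤ, x ∈ H ↔ a ∣ x := by
    intro x
    rw [ha, ← AddSubgroup.zmultiples_eq_closure, Int.mem_zmultiples_iff]
  by_cases h1 : a.natAbs = 1
  · rw [hmem]
    exact Int.natAbs_dvd_natAbs.1 (by rw [h1]; exact one_dvd _)
  · exfalso
    obtain ⟨l, hl, hla⟩ := Nat.exists_prime_and_dvd h1
    obtain ⟨d, hd, hld⟩ := h l hl
    apply hld
    rw [hmem] at hd
    have h2 := Int.natAbs_dvd_natAbs.2 hd
    rw [Int.natAbs_natCast] at h2
    exact hla.trans h2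

variable {Γ : Type} [Group Γ] {E : Type} [Field E] {n : ℕ} {P : Type} (M : Realizations Γ E n P)

section

variable {E' : Type} [Field E'] [Algebra E E'] [Algebra.IsAlgebraic E E']
  {r : Type} [Fintype r] [DecidableEq r] {ρ : Γ →* Matrix r r E'} {z z' W : ℂ}

theorem ratio_of {w : (E' →+* ℂ) → ℂ} (hq : Quo M z z' ρ w) {e : E'} (he : e ≠ 0)
    (h : ∀ τ, w τ = τ e * W ^ Fintype.card r) : Ratio M W z z' ρ := by
  obtain ⟨L, hL, -, h1⟩ := hq
  intro L' hL'
  refine ⟨e, he, fun τ => ?_⟩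
  obtain ⟨a, a', h2, h3, h4, h5, h6⟩ := h1 τ
  refine ⟨a, a', h2, h3, h4.congr' (hL.eventuallyEq M hL' τ z),
    h5.congr' (hL.eventuallyEq M hL' τ z'), ?_⟩
  rw [← h, h6, div_mul_cancel₀ _ h3]

theorem ratio_to {w : (E' →+* ℂ) → ℂ} (hq : Quo M z z' ρ w) (h : Ratio M W z z' ρ) :
    ∃ e : E', e ≠ 0 ∧ ∀ τ, w τ = τ e * W ^ Fintype.card r := by
  obtain ⟨L, hL, -, h1⟩ := hq
  obtain ⟨e, he, h2⟩ := h L hL
  refine ⟨e, he, fun τ => ?_⟩
  obtain ⟨a, a', a2, a3, a4, a5, a6⟩ := h1 τ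
  obtain ⟨b, b', b2, b3, b4, b5, b6⟩ := h2 τ
  have e1 := tendsto_nhds_unique a4 b4
  have e2 := tendsto_nhds_unique a5 b5
  rw [a6, e1, e2, b6, mul_div_assoc, div_self b3, mul_one]

end

section

variable [NumberField E]

/-- descent of an element of the field of coefficients -/
theorem desc_elt {E' : Type} [Field E'] [NumberField E'] [Algebra E E'] {e : E'} {v : (E →+* ℂ) → ℂ}
    (h : ∀ τ : E' →+* ℂ, v (τ.comp (algebraMap E E')) = τ e) :
    ∃ a : E, algebraMap E E' a = e ∧ ∀ σ : E →+* ℂ, v σ = σ a := by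
  have a2 : Algebra.IsAlgebraic E E' := by
    have : FiniteDimensional E E' := Module.Finite.of_restrictScalars_finite ℚ E E'
    exact Algebra.IsAlgebraic.of_finite E E'
  obtain ⟨τ₁⟩ : Nonempty (E →+* ℂ) := inferInstance
  obtain ⟨τ₂, hτ₂⟩ := exists_ext E E' ℂ τ₁
  obtain ⟨e', he'⟩ : ∃ a : E, algebraMap E E' a = e := by
    let _ : Algebra E ℂ := τ₁.toAlgebra
    refine mem_of_conj (K := ℂ) e (τ₂ e) fun j => ?_
    have h1 : (j : E' →+* ℂ).comp (algebraMap E E') = τ₁ := RingHom.ext fun x => j.commutes x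
    have h2 := h (j : E' →+* ℂ)
    have h3 := h τ₂
    rw [h1] at h2
    rw [hτ₂] at h3
    exact h2.symm.trans h3
  refine ⟨e', he', fun σ => ?_⟩
  obtain ⟨τ', hτ'⟩ := exists_ext E E' ℂ σ
  have k1 := h τ'
  rw [hτ', ← he'] at k1
  rw [k1, ← hτ']
  rfl

/-- **The constant**: the relations for all representations, and the formula for representations
whose dimensions have no common divisor, give the formula for all representations -/
theorem const_all (N : Subgroup Γ) {z z' W : ℂ} (hW : W ≠ 0)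
    (hex : ∀ (E' : Type) [Field E'] [NumberField E'] [Algebra E E'] (r : Type) [Fintype r]
      [DecidableEq r] (ρ : Γ →* Matrix r r E'), (∀ γ ∈ N, ρ γ = 1) → ∃ w, Quo M z z' ρ w)
    (hrel : ∀ (E' : Type) [Field E'] [NumberField E'] [Algebra E E'] (r : Type) [Fintype r]
      [DecidableEq r] (ρ : Γ →* Matrix r r E'), (∀ γ ∈ N, ρ γ = 1) → ∀ w w₁ : (E' →+* ℂ) → ℂ,
      Quo M z z' ρ w → Quo M z z' (1 : Γ →* Matrix (Fin 1) (Fin 1) E') w₁ →
      ∃ e : E', e ≠ 0 ∧ ∀ τ, w τ = τ e * w₁ τ ^ Fintype.card r)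
    (hQ : ∀ l : ℕ, l.Prime → ∃ (E' : Type) (_ : Field E') (_ : NumberField E') (_ : Algebra E E')
      (r : Type) (_ : Fintype r) (_ : DecidableEq r) (ρ : Γ →* Matrix r r E'),
      (∀ γ ∈ N, ρ γ = 1) ∧ ¬ l ∣ Fintype.card r ∧ Ratio M W z z' ρ)
    {E' : Type} [Field E'] [NumberField E'] [Algebra E E'] {r : Type} [Fintype r] [DecidableEq r]
    (ρ : Γ →* Matrix r r E') (hρ : ∀ γ ∈ N, ρ γ = 1) : Ratio M W z z' ρ := by
  have halg : ∀ (E' : Type) [Field E'] [NumberField E'] [Algebra E E'],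
      Algebra.IsAlgebraic E E' := by
    intro E' _ _ _
    have : FiniteDimensional E E' := Module.Finite.of_restrictScalars_finite ℚ E E'
    exact Algebra.IsAlgebraic.of_finite E E'
  obtain ⟨w₁, hw₁⟩ := hex E (Fin 1) 1 (fun _ _ => rfl)
  have hbase : ∀ (E' : Type) [Field E'] [NumberField E'] [Algebra E E'],
      Quo M z z' (1 : Γ →* Matrix (Fin 1) (Fin 1) E')
        (fun τ => w₁ (τ.comp (algebraMap E E'))) := by
    intro E' _ _ _
    have := halg E'
    have h1 := Quo.base M E' (1 : Γ →* Matrix (Fin 1) (Fin 1) E) hw₁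
    have h2 : baseRep E' (1 : Γ →* Matrix (Fin 1) (Fin 1) E) = 1 := by
      ext1 γ
      change ((1 : Matrix (Fin 1) (Fin 1) E)).map (algebraMap E E') = 1
      rw [Matrix.map_one _ (map_zero _) (map_one _)]
    rw [h2] at h1
    exact h1
  -- the subgroup of exponents
  let H : AddSubgroup ℤ :=
    { carrier := {d | ∃ e : E, e ≠ 0 ∧ ∀ τ, (w₁ τ / W) ^ d = τ e}
      zero_mem' := ⟨1, one_ne_zero, fun τ => by simp⟩
      add_mem' := by
        rintro a b ⟨e, he, h1⟩ ⟨f, hf, h2⟩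
        refine ⟨e * f, mul_ne_zero he hf, fun τ => ?_⟩
        rw [zpow_add₀ (div_ne_zero (hw₁.ne M τ) hW), h1, h2, map_mul]
      neg_mem' := by
        rintro a ⟨e, he, h1⟩
        refine ⟨e⁻¹, inv_ne_zero he, fun τ => ?_⟩
        rw [_root_.zpow_neg, h1, map_inv₀] }
  have h1 : (1 : ℤ) ∈ H := by
    refine one_mem_int H fun l hl => ?_
    obtain ⟨E₂, _, _, _, k, _, _, s, hs, hk, hR⟩ := hQ l hl
    have := halg E₂
    refine ⟨Fintype.card k, ?_, hk⟩
    obtain ⟨w, hw⟩ := hex E₂ k s hs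
    obtain ⟨e, he, h1⟩ := hrel E₂ k s hs _ _ hw (hbase E₂)
    obtain ⟨f, hf, h2⟩ := ratio_to M hw hR
    obtain ⟨a, ha, h3⟩ := desc_elt (e := f / e) (v := fun σ => (w₁ σ / W) ^ Fintype.card k) (by
      intro τ
      have h3 := h1 τ
      rw [h2 τ] at h3
      have n1 : τ e ≠ 0 := (map_ne_zero τ).2 he
      have n2 : W ^ Fintype.card k ≠ 0 := pow_ne_zero _ hW
      rw [div_pow, map_div₀, div_eq_div_iff n2 n1, h3]
      ring)
    refine ⟨a, ?_, fun τ => ?_⟩
    · rintro rfl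
      rw [map_zero] at ha
      exact div_ne_zero hf he ha.symm
    · rw [zpow_natCast]
      exact h3 τ
  obtain ⟨a, ha, h2⟩ := h1
  have h3 : ∀ τ : E →+* ℂ, w₁ τ = τ a * W := by
    intro τ
    rw [← h2, zpow_one, div_mul_cancel₀ _ hW]
  have := halg E'
  obtain ⟨w, hw⟩ := hex E' r ρ hρ
  obtain ⟨e, he, h4⟩ := hrel E' r ρ hρ _ _ hw (hbase E')
  refine ratio_of M hw (e := e * algebraMap E E' a ^ Fintype.card r)
    (mul_ne_zero he (pow_ne_zero _ ((_root_.map_ne_zero _).2 ha))) fun τ => ?_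
  rw [h4, h3, map_mul, map_pow, mul_pow, mul_assoc]
  rfl

end

end Pool.Agent.Helper51K9.UC
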