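import Pool.Agent.Helper8K9.DC.Nil
import Pool.Agent.Helper51K9.RG.Brauer

/-!
# Virtual characters of degree zero and nilpotent subgroups
-/

set_option autoImplicit false
set_option linter.unusedSectionVars false

namespace Pool.Agent.Helper51K9.UC

open Pool.Agent.R389 Pool.Agent.H541R3.ART Pool.Agent.Helper8K9.DC

/-- the group generated by the differences `ind ψ - ind 1` for the linear characters `ψ` of the
nilpotent subgroups -/
def NG (G : Type) [Group G] : AddSubgroup (G → ℂ) :=
  AddSubgroup.closure {f | ∃ (U : Subgroup G) (ψ : U →* ℂˣ), Group.IsNilpotent U ∧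
    f = ind U (lc ψ) - ind U 1}

theorem lc_one {G : Type} [Group G] : lc (1 : G →* ℂˣ) = 1 := by
  funext g; simp [lc]

section

variable {G : Type} [Group G] [Finite G]

theorem ind_ng (H : Subgroup G) {f : H → ℂ} (hf : f ∈ NG H) : ind H f ∈ NG G := by
  have h1 : NG H ≤ (NG G).comap (indHom H) := by
    rw [NG, AddSubgroup.closure_le]
    rintro f ⟨V, ψ, hV, rfl⟩
    rw [SetLike.mem_coe, AddSubgroup.mem_comap, indHom_apply, ind_sub, ind_ind, ind_ind]
    refine AddSubgroup.subset_closure ⟨V.map H.subtype, ψ.comp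
      (V.equivMapOfInjective H.subtype H.subtype_injective).symm.toMonoidHom, ?_, rfl⟩
    exact Group.nilpotent_of_mulEquiv (V.equivMapOfInjective H.subtype H.subtype_injective)
  exact h1 hf

theorem lc_ng (hG : Group.IsNilpotent G) (ψ : G →* ℂˣ) : lc ψ - 1 ∈ NG G := by
  have h1 := ind_top (ψ.comp (⊤ : Subgroup G).subtype)
  have h2 := ind_top (G := G) 1
  have h3 : (ψ.comp (⊤ : Subgroup G).subtype).comp Subgroup.topEquiv.symm.toMonoidHom = ψ := by
    ext x; rfl
  have h4 : (1 : (⊤ : Subgroup G) →* ℂˣ).comp Subgroup.topEquiv.symm.toMonoidHom = 1 := by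
    ext x; rfl
  rw [h3] at h1
  rw [h4, lc_one, lc_one] at h2
  refine AddSubgroup.subset_closure ⟨⊤, ψ.comp (⊤ : Subgroup G).subtype, ?_, by rw [h1, h2]⟩
  infer_instance

end

/-- the permutation characters of a nilpotent group -/
theorem one_ng : ∀ (n : ℕ) (G : Type) [Group G] [Finite G], Nat.card G = n →
    Group.IsNilpotent G → ∀ U : Subgroup G, ind U 1 - (fun _ => (U.index : ℂ)) ∈ NG G := by
  intro n
  induction n using Nat.strong_induction_on with
  | _ n ih =>
    intro G _ _ hn hnil U
    classical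
    by_cases hT : U = ⊤
    · subst hT
      have h2 := ind_top (G := G) 1
      have h4 : (1 : (⊤ : Subgroup G) →* ℂˣ).comp Subgroup.topEquiv.symm.toMonoidHom = 1 := by
        ext x; rfl
      rw [h4, lc_one, lc_one] at h2
      rw [h2, Subgroup.index_top]
      have h1 : (1 : G → ℂ) - (fun _ => ((1 : ℕ) : ℂ) : G → ℂ) = 0 := by funext x; simp
      rw [h1]
      exact AddSubgroup.zero_mem _
    · have hq : Group.IsNilpotent (G ⧸ (⊥ : Subgroup G)) := inferInstance
      obtain ⟨M, hM, hp, hUM⟩ := exists_max ⊥ hq U bot_le hT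
      have hlt : Nat.card M < n := by
        rw [← hn]
        rcases lt_or_eq_of_le (Nat.le_of_dvd Nat.card_pos M.card_subgroup_dvd_card) with h | h
        · exact h
        · exfalso
          have h2 := Subgroup.eq_top_of_card_eq M h
          rw [h2, Subgroup.index_top] at hp
          exact Nat.not_prime_one hp
      have hnM : Group.IsNilpotent M := inferInstance
      have h1 := ih _ hlt M rfl hnM (U.subgroupOf M)
      have h3 : ind M (ind (U.subgroupOf M) 1
          - (fun _ => ((U.subgroupOf M).index : ℂ))) ∈ NG G := ind_ng M h1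
      have h4 : ind M (ind (U.subgroupOf M) 1) = ind U (1 : U → ℂ) :=
        ind_stage U M hUM 1
      obtain ⟨χ, hχ1, hχ2⟩ := exists_gen M hp
      have h5 : ind M (fun _ => ((U.subgroupOf M).index : ℂ))
          = (U.subgroupOf M).index • ind M (1 : M → ℂ) := by
        rw [← indHom_apply, ← indHom_apply, ← map_nsmul]
        congr 1
        funext x
        simp
      have h6 : (U.index : ℂ) = ((U.subgroupOf M).index : ℂ) * M.index := by
        rw [← Subgroup.relIndex_mul_index hUM]
        push_cast
        rfl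
      have h7 : ind U (1 : U → ℂ) - (fun _ => (U.index : ℂ))
          = ind M (ind (U.subgroupOf M) 1
              - (fun _ => ((U.subgroupOf M).index : ℂ)))
            + (U.subgroupOf M).index • ∑ j ∈ Finset.range M.index, (lc (χ ^ j) - 1) := by
        rw [ind_sub, h4, h5, ind_one_eq M χ hχ1 hχ2, Finset.sum_sub_distrib, smul_sub]
        funext g
        simp only [Pi.sub_apply, Pi.add_apply, Pi.smul_apply, Finset.sum_const, Finset.card_range,
          Pi.one_apply]
        simp only [nsmul_eq_mul, mul_one]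
        rw [h6]
        ring
      rw [h7]
      refine AddSubgroup.add_mem _ h3 (AddSubgroup.nsmul_mem _ (AddSubgroup.sum_mem _ ?_) _)
      intro j _
      exact lc_ng hnil _

section

variable {G : Type} [Group G] [Finite G]

theorem ind_index (U : Subgroup G) (ψ : U →* ℂˣ) : ind U (lc ψ) 1 = U.index := by
  classical
  have : Fintype G := Fintype.ofFinite G
  rw [ind_eq]
  have h1 : ∀ x : G, ext U (lc ψ) (x⁻¹ * 1 * x) = 1 := by
    intro x
    have h2 : x⁻¹ * 1 * x = 1 := by group
    rw [h2, ext_mem _ _ (one_mem _)]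
    have h3 : (⟨1, one_mem _⟩ : U) = 1 := rfl
    rw [h3]
    simp [lc]
  rw [Finset.sum_congr rfl (fun x _ => h1 x), Finset.sum_const, Finset.card_univ,
    ← Nat.card_eq_fintype_card, ← U.card_mul_index]
  have h3 : (Nat.card U : ℂ) ≠ 0 := by exact_mod_cast Nat.card_pos.ne'
  rw [nsmul_eq_mul]
  push_cast
  field_simp

/-- for a nilpotent group -/
theorem nil_ng (hG : Group.IsNilpotent G) (ψ : G →* ℂˣ) {f : G → ℂ}
    (hf : f ∈ AddSubgroup.closure (Irr G)) : (fun g => lc ψ g * (f g - f 1)) ∈ NG G := by
  induction hf using AddSubgroup.closure_induction with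
  | mem x hx =>
    obtain ⟨J, μ, rfl⟩ := nil_mono _ G rfl hG x hx
    have hx1 : ind J (lc μ) 1 = J.index := ind_index J μ
    have h2 : ind J (lc (μ * ψ.comp J.subtype)) = fun g => ind J (lc μ) g * lc ψ g := by
      funext g
      rw [← ind_mul J (lc μ) (F := lc ψ) (fun g x => lc_class ψ g x)]
      congr 1
    have h3 : (fun g => lc ψ g * (ind J (lc μ) g - ind J (lc μ) 1))
        = (ind J (lc (μ * ψ.comp J.subtype)) - ind J 1) + (ind J 1 - fun _ => (J.index : ℂ))
          - J.index • (lc ψ - 1) := by
      rw [h2, hx1]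
      funext g
      simp only [Pi.sub_apply, Pi.add_apply, Pi.smul_apply, Pi.one_apply]
      rw [nsmul_eq_mul]
      ring
    change (fun g => lc ψ g * (ind J (lc μ) g - ind J (lc μ) 1)) ∈ NG G
    rw [h3]
    refine AddSubgroup.sub_mem _ (AddSubgroup.add_mem _ ?_ (one_ng _ G rfl hG J))
      (AddSubgroup.nsmul_mem _ (lc_ng hG ψ) _)
    exact AddSubgroup.subset_closure ⟨J, _, inferInstance, rfl⟩
  | zero =>
    have : (fun g => lc ψ g * ((0 : G → ℂ) g - (0 : G → ℂ) 1)) = 0 := by funext; simp
    rw [this]; exact AddSubgroup.zero_mem _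
  | add a b _ _ ha hb =>
    have : (fun g => lc ψ g * ((a + b) g - (a + b) 1))
        = (fun g => lc ψ g * (a g - a 1)) + fun g => lc ψ g * (b g - b 1) := by
      funext; simp only [Pi.add_apply]; ring
    rw [this]; exact AddSubgroup.add_mem _ ha hb
  | neg a _ ha =>
    have : (fun g => lc ψ g * ((-a) g - (-a) 1)) = -fun g => lc ψ g * (a g - a 1) := by
      funext; simp only [Pi.neg_apply]; ring
    rw [this]; exact AddSubgroup.neg_mem _ ha

/-- **Brauer's theorem in degree zero, with nilpotent subgroups**: every virtual character minus its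
degree is a combination of differences `ind ψ - ind 1`, `ψ` a linear character of a nilpotent
subgroup. -/
theorem deg_zero {f : G → ℂ} (hf : f ∈ AddSubgroup.closure (Irr G)) :
    (fun g => f g - f 1) ∈ NG G := by
  have hcl : ∀ g x : G, f (x * g * x⁻¹) = f g := fun g x =>
    Pool.Agent.W446.AS.Virt.conj hf _ _
  have key : ∀ D ∈ PN G, (fun g => D g * (f g - f 1)) ∈ NG G := by
    intro D hD
    unfold PN at hD
    induction hD using AddSubgroup.closure_induction with
    | mem x hx =>
      obtain ⟨V, ψ, hV, rfl⟩ := hx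
      have h0 : (fun v : V => f v) ∈ AddSubgroup.closure (Irr V) :=
        Pool.Agent.W446.AS.Virt.comp (G := G) hf V.subtype
      have h1 := ind_ng V (nil_ng hV ψ h0)
      have h2 : ind V (fun v : V => lc ψ v * (f v - f (1 : V)))
          = fun g => ind V (lc ψ) g * (f g - f 1) := by
        funext g
        exact ind_mul V (lc ψ) (F := fun g => f g - f 1) (fun g x => by rw [hcl]) g
      rw [h2] at h1
      exact h1
    | zero =>
      have : (fun g => (0 : G → ℂ) g * (f g - f 1)) = 0 := by funext; simp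
      rw [this]; exact AddSubgroup.zero_mem _
    | add a b _ _ ha hb =>
      have : (fun g => (a + b) g * (f g - f 1))
          = (fun g => a g * (f g - f 1)) + fun g => b g * (f g - f 1) := by
        funext; simp only [Pi.add_apply]; ring
      rw [this]; exact AddSubgroup.add_mem _ ha hb
    | neg a _ ha =>
      have : (fun g => (-a) g * (f g - f 1)) = -fun g => a g * (f g - f 1) := by
        funext; simp only [Pi.neg_apply]; ring
      rw [this]; exact AddSubgroup.neg_mem _ ha
  have h := key _ one_mem_pn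
  simpa using h

/-- **Brauer's theorem in degree zero over a field with enough roots of unity.** -/
theorem deg_zero_field {k : Type} [Field k] {ζ : k} (hζ : IsPrimitiveRoot ζ (Monoid.exponent G))
    (τ : k →+* ℂ) (T : Set ((G → k) × (G → k))) (hadd : ∀ a ∈ T, ∀ b ∈ T, a + b ∈ T)
    (hswap : ∀ a ∈ T, a.swap ∈ T)
    (hind : ∀ (U : Subgroup G) (ψ : U →* kˣ), Group.IsNilpotent U →
      (ind U (fun u => ((ψ u : kˣ) : k)), ind U (fun _ => 1)) ∈ T)
    (f : G → k) (hf : (fun g => τ (f g)) ∈ AddSubgroup.closure (Irr G)) :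
    ∃ a b : G → k, (a, b) ∈ T ∧ ∀ g, f g + b g = a g + f 1 := by
  classical
  let r : G → k := ind (⊥ : Subgroup G) (fun _ => 1)
  have hr : (r, r) ∈ T := by
    have := hind ⊥ 1 inferInstance
    simpa using this
  have key : ∀ F ∈ NG G, ∃ a b : G → k, (a, b) ∈ T ∧ ∀ g, F g + τ (b g) = τ (a g) := by
    intro F hF
    unfold NG at hF
    induction hF using AddSubgroup.closure_induction with
    | mem x hx =>
      obtain ⟨V, ψ, hV, rfl⟩ := hx
      obtain ⟨ψE, hψ⟩ := lift_char hζ τ V ψ
      refine ⟨_, _, hind V ψE hV, fun g => ?_⟩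
      have h1 : (fun u => τ ((ψE u : kˣ) : k)) = lc ψ := funext hψ
      have h2 := ind_map τ V (fun u => ((ψE u : kˣ) : k)) g
      have h3 := ind_map τ V (fun _ => (1 : k)) g
      rw [h1] at h2
      rw [h2, h3]
      have h4 : (fun _ => τ 1 : V → ℂ) = 1 := by funext; simp
      rw [h4, Pi.sub_apply, sub_add_cancel]
    | zero => exact ⟨r, r, hr, fun g => by simp⟩
    | add x y _ _ hx hy =>
      obtain ⟨a, b, h0, h1⟩ := hx
      obtain ⟨a', b', h0', h2⟩ := hy
      refine ⟨a + a', b + b', hadd _ h0 _ h0', fun g => ?_⟩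
      rw [Pi.add_apply, Pi.add_apply, Pi.add_apply, map_add, map_add, ← h1, ← h2]
      ring
    | neg x _ hx =>
      obtain ⟨a, b, h0, h1⟩ := hx
      refine ⟨b, a, hswap _ h0, fun g => ?_⟩
      rw [Pi.neg_apply, ← h1]
      ring
  obtain ⟨a, b, h0, h1⟩ := key _ (deg_zero hf)
  refine ⟨a, b, h0, fun g => τ.injective ?_⟩
  rw [map_add, map_add, ← h1]
  ring

end

end Pool.Agent.Helper51K9.UC
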