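import Pool.Agent.Helper51K9.UC.Mot
import Pool.Agent.Helper51K9.UC.Gen
import Pool.Agent.Helper51K9.TI.Main
import Pool.Agent.Helper51K9.TI.DeltaP

/-!
# Unspecified constants
-/

set_option autoImplicit false
set_option linter.unusedSectionVars false

namespace Pool.Agent.Helper51K9.UC

open Matrix Polynomial Filter Topology NumberField TI

section

variable {A : Type} [Field A] [CharZero A] {F : IntermediateField ℚ A} {E : Type} [Field E] {n : ℕ}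
  (M : Motive F E n) {m : ℤ} (hm : IsCritical M m)

include hm

theorem crit : ∀ j, (M.hodge j : ℝ) < ((m : ℂ)).re := by
  intro j
  rw [Complex.intCast_re]
  exact_mod_cast (hm j).1

theorem crit' : ∀ j, (M.hodge j : ℝ) < (((m + 1 : ℤ) : ℂ)).re := by
  intro j
  rw [Complex.intCast_re]
  have := (hm j).1
  exact_mod_cast this.trans (lt_add_one m)

variable {E' : Type} [Field E'] [Algebra E E'] {r : Type} [Fintype r] [DecidableEq r]

theorem ratio_of_quo {ρ : F.fixingSubgroup →* Matrix r r E'} {w : (E' →+* ℂ) → ℂ}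
    (h : Quo M.toRealizations (m : ℂ) ((m + 1 : ℤ) : ℂ) ρ w) :
    IsRatio M m ρ (fun τ => (gammaFactor M 1 (m : ℂ) / gammaFactor M 1 ((m + 1 : ℤ) : ℂ)) ^
      Fintype.card r * w τ) := by
  obtain ⟨L, hL, -, h1⟩ := h
  refine ⟨fun τ s => gammaFactor M (Fintype.card r) s * L τ s, ⟨L, hL, fun τ s => rfl⟩, fun τ => ?_⟩
  obtain ⟨a, a', h2, h3, h4, h5, h6⟩ := h1 τ
  refine ⟨_, _, mul_ne_zero (gamma_ne M _ (crit M hm)) h2,
    mul_ne_zero (gamma_ne M _ (crit' M hm)) h3, (gamma_tendsto M _ (crit M hm)).mul h4,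
    (gamma_tendsto M _ (crit' M hm)).mul h5, ?_⟩
  beta_reduce
  rw [h6, gamma_pow M (Fintype.card r) (m : ℂ), gamma_pow M (Fintype.card r) ((m + 1 : ℤ) : ℂ), div_pow, div_mul_div_comm]

theorem quo_of_ratio [Algebra.IsAlgebraic E E'] {ρ : F.fixingSubgroup →* Matrix r r E'}
    {R : (E' →+* ℂ) → ℂ} (hL : HasL M.toRealizations ρ) (h : IsRatio M m ρ R) :
    Quo M.toRealizations (m : ℂ) ((m + 1 : ℤ) : ℂ) ρ
      (fun τ => R τ * (gammaFactor M 1 ((m + 1 : ℤ) : ℂ) / gammaFactor M 1 (m : ℂ)) ^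
        Fintype.card r) := by
  obtain ⟨L, hL, hz⟩ := hL
  obtain ⟨Λ, ⟨L', hL', hΛ⟩, h1⟩ := h
  refine ⟨L, hL, hz, fun τ => ?_⟩
  obtain ⟨a, a', h2, h3, h4, h5, h6⟩ := h1 τ
  have hτ : Λ τ = fun s => gammaFactor M (Fintype.card r) s * L' τ s := funext fun s => hΛ τ s
  have n1 := gamma_ne M (Fintype.card r) (crit M hm)
  have n2 := gamma_ne M (Fintype.card r) (crit' M hm)
  have t1 := gamma_tendsto M (Fintype.card r) (crit M hm)
  have t2 := gamma_tendsto M (Fintype.card r) (crit' M hm)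
  have key : ∀ {s₀ g a : ℂ}, g ≠ 0 → Tendsto (gammaFactor M (Fintype.card r)) (𝓝[≠] s₀) (𝓝 g) →
      Tendsto (Λ τ) (𝓝[≠] s₀) (𝓝 a) → Tendsto (L τ) (𝓝[≠] s₀) (𝓝 (a / g)) := by
    intro s₀ g a hg ht ha
    refine (ha.div ht hg).congr' ?_
    filter_upwards [ht.eventually_ne hg, hL.eventuallyEq _ hL' τ s₀] with s hs hs'
    rw [hτ, hs']
    exact mul_div_cancel_left₀ _ hs
  refine ⟨_, _, div_ne_zero h2 n1, div_ne_zero h3 n2, key n1 t1 h4, key n2 t2 h5, ?_⟩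
  beta_reduce
  rw [h6, gamma_pow M (Fintype.card r) (m : ℂ), gamma_pow M (Fintype.card r) ((m + 1 : ℤ) : ℂ)]
  rw [gamma_pow] at n1 n2
  rw [div_pow]
  field_simp

end

theorem card_one : Fintype.card (Fin 1) = 1 := Fintype.card_fin 1

section

variable {A : Type} [Field A] [CharZero A] [IsAlgClosed A] [Algebra.IsAlgebraic ℚ A]
  {F : IntermediateField ℚ A} [FiniteDimensional ℚ F] {E : Type} [Field E] [NumberField E] {n : ℕ}
  (M : Motive F E n) {m : ℤ} (hm : IsCritical M m) (Ω : IntermediateField ℚ A)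
  [FiniteDimensional ℚ Ω] (hΩ : F ≤ Ω) [(gal F Ω).Normal]

include hm hΩ

/-- the hypothesis in terms of the L-functions -/
theorem hyp (h : TwistInvariance M m Ω) : ∀ (E' : Type) [Field E'] [NumberField E'] [Algebra E E']
      (U : Subgroup F.fixingSubgroup), gal F Ω ≤ U →
      Group.IsNilpotent (U.map (QuotientGroup.mk' (gal F Ω))) →
      ∀ [Fintype (F.fixingSubgroup ⧸ U)] [DecidableEq (F.fixingSubgroup ⧸ U)]
      (ψ : U →* E'ˣ), (∀ γ : U, (γ : F.fixingSubgroup) ∈ gal F Ω → ψ γ = 1) → ∃ w w₁,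
        Quo M.toRealizations (m : ℂ) ((m + 1 : ℤ) : ℂ) (induced U ψ) w ∧
        Quo M.toRealizations (m : ℂ) ((m + 1 : ℤ) : ℂ) (induced U (1 : U →* E'ˣ)) w₁ ∧
        ∃ e : E', e ≠ 0 ∧ ∀ τ, w τ = τ e * w₁ τ := by
  intro E' _ _ _ U hU hnil _ _ ψ hψ
  have a2 : Algebra.IsAlgebraic E E' := by
    have : FiniteDimensional E E' := Module.Finite.of_restrictScalars_finite ℚ E E'
    exact Algebra.IsAlgebraic.of_finite E E'
  obtain ⟨K, hFK, hKΩ, rfl⟩ := exists_field_of F Ω hΩ U hU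
  obtain ⟨h1, R, R₁, h2, h3, e, he, h4⟩ := h E' K hFK hKΩ hnil ψ
    (fun γ hγ => hψ γ (Subgroup.mem_subgroupOf.2 hγ))
  obtain ⟨h1', -⟩ := h E' K hFK hKΩ hnil 1 (fun γ hγ => rfl)
  refine ⟨_, _, quo_of_ratio M hm h1 h2, quo_of_ratio M hm h1' h3, e, he, fun τ => ?_⟩
  simp only [h4]
  ring

/-- all the L-functions -/
theorem ex_all (h : TwistInvariance M m Ω) : ∀ (E' : Type) [Field E'] [NumberField E']
      [Algebra E E'] (r : Type) [Fintype r] [DecidableEq r] (ρ : F.fixingSubgroup →* Matrix r r E'),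
      (∀ γ ∈ gal F Ω, ρ γ = 1) →
      ∃ w, Quo M.toRealizations (m : ℂ) ((m + 1 : ℤ) : ℂ) ρ w := by
  intro E' _ _ _ r _ _ ρ hρ
  have hfin : Finite (F.fixingSubgroup ⧸ gal F Ω) := finite_quot F Ω hΩ
  refine quo_all M.toRealizations (gal F Ω) ?_ ρ hρ
  intro k _ _ _ U hU hnil _ _ ψ hψ
  obtain ⟨w, w₁, h1, -⟩ := hyp M hm Ω hΩ h k U hU hnil ψ hψ
  exact ⟨w, h1⟩

theorem rels (h : TwistInvariance M m Ω) : ∀ (E' : Type) [Field E'] [NumberField E']
      [Algebra E E'] (r : Type) [Fintype r] [DecidableEq r] (ρ : F.fixingSubgroup →* Matrix r r E'),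
      (∀ γ ∈ gal F Ω, ρ γ = 1) → ∀ w w₁ : (E' →+* ℂ) → ℂ,
      Quo M.toRealizations (m : ℂ) ((m + 1 : ℤ) : ℂ) ρ w →
      Quo M.toRealizations (m : ℂ) ((m + 1 : ℤ) : ℂ)
        (1 : F.fixingSubgroup →* Matrix (Fin 1) (Fin 1) E') w₁ →
      ∃ e : E', e ≠ 0 ∧ ∀ τ, w τ = τ e * w₁ τ ^ Fintype.card r := by
  intro E' _ _ _ r _ _ ρ hρ w w₁ hw hw₁
  have hfin : Finite (F.fixingSubgroup ⧸ gal F Ω) := finite_quot F Ω hΩ
  refine rel_all M.toRealizations (gal F Ω) ?_ ρ hρ hw hw₁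
  intro k _ _ _ U hU hnil _ _ ψ hψ
  exact hyp M hm Ω hΩ h k U hU hnil ψ hψ

/-- **All representations.** -/
theorem powers (h : TwistInvariance M m Ω) : Powers M m Ω := by
  intro E' _ _ _ r _ _ ρ hρ
  have hρ' : ∀ γ ∈ gal F Ω, ρ γ = 1 := fun γ hγ => hρ γ (Subgroup.mem_subgroupOf.1 hγ)
  obtain ⟨w, hw⟩ := ex_all M hm Ω hΩ h E' r ρ hρ'
  obtain ⟨w₁, hw₁⟩ := ex_all M hm Ω hΩ h E' (Fin 1) 1 (fun _ _ => rfl)
  obtain ⟨e, he, h1⟩ := rels M hm Ω hΩ h E' r ρ hρ' w w₁ hw hw₁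
  refine ⟨hw.hasL, _, _, ratio_of_quo M hm hw, ratio_of_quo M hm hw₁, e, he, fun τ => ?_⟩
  simp only [h1, card_one, pow_one]
  rw [mul_pow]
  ring

/-- the converse -/
theorem twist_of_powers (h : Powers M m Ω) : TwistInvariance M m Ω := by
  intro E' _ _ _ K hFK hKΩ _ _ _ ψ hψ
  have a2 : Algebra.IsAlgebraic E E' := by
    have : FiniteDimensional E E' := Module.Finite.of_restrictScalars_finite ℚ E E'
    exact Algebra.IsAlgebraic.of_finite E E'
  have hle : gal F Ω ≤ gal F K := by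
    intro γ hγ
    rw [Subgroup.mem_subgroupOf] at hγ ⊢
    exact IntermediateField.fixingSubgroup_antitone hKΩ hγ
  have hT : ∀ ψ : gal F K →* E'ˣ, (∀ γ : gal F K, ((γ : F.fixingSubgroup) : A ≃ₐ[ℚ] A) ∈
      Ω.fixingSubgroup → ψ γ = 1) → TrivialOn Ω (induced (gal F K) ψ) := fun ψ hψ γ hγ =>
    induced_trivial (gal F Ω) (gal F K) hle ψ
      (fun γ hγ => hψ γ (Subgroup.mem_subgroupOf.1 hγ)) γ (Subgroup.mem_subgroupOf.2 hγ)
  obtain ⟨h1, R, R₁, h2, h3, e, he, h4⟩ := h E' _ (induced (gal F K) ψ) (hT ψ hψ)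
  obtain ⟨k1, S, S₁, k2, k3, f, hf, k4⟩ := h E' _ (induced (gal F K) (1 : gal F K →* E'ˣ))
    (hT 1 fun _ _ => rfl)
  have hL1 : HasL M.toRealizations (1 : F.fixingSubgroup →* Matrix (Fin 1) (Fin 1) E') :=
    (h E' (Fin 1) 1 (fun _ _ => rfl)).1
  have q1 := quo_of_ratio M hm hL1 h3
  have q2 := quo_of_ratio M hm hL1 k3
  have hRS : ∀ τ, R₁ τ = S₁ τ := by
    intro τ
    have h5 := q1.unique _ q2 τ
    have n3 : (gammaFactor M 1 ((m + 1 : ℤ) : ℂ) / gammaFactor M 1 (m : ℂ)) ^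
        Fintype.card (Fin 1) ≠ 0 := pow_ne_zero _ (div_ne_zero (gamma_ne M 1 (crit' M hm))
          (gamma_ne M 1 (crit M hm)))
    exact mul_right_cancel₀ n3 h5
  refine ⟨h1, R, S, h2, k2, e / f, div_ne_zero he hf, fun τ => ?_⟩
  have n1 : τ f ≠ 0 := (map_ne_zero τ).2 hf
  simp only at h4 k4
  rw [h4, k4, hRS, map_div₀]
  field_simp

variable {ι : A →+* ℂ} {c : A ≃ₐ[ℚ] A} (hc : IsConj ι c) (hF : TotallyImaginary c F)

include hc hF

/-- **The constant.** -/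
theorem all_formulas (h : TwistInvariance M m Ω) (hS : SomeFormulas M ι c m Ω) :
    AllFormulas M ι c m Ω := by
  obtain ⟨δ, hδ⟩ := exists_delta ι c F
  set W : ℂ := (Complex.I ^ (Module.finrank ℚ F / 2) * ι δ) ^ n *
    (gammaFactor M 1 ((m + 1 : ℤ) : ℂ) / gammaFactor M 1 (m : ℂ)) with hWdef
  have hW : W ≠ 0 := by
    refine mul_ne_zero (pow_ne_zero _ (mul_ne_zero (pow_ne_zero _ Complex.I_ne_zero) ?_))
      (div_ne_zero (gamma_ne M 1 (crit' M hm)) (gamma_ne M 1 (crit M hm)))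
    exact (map_ne_zero ι).2 (delta_ne hδ)
  have hfd : ∀ K : IntermediateField ℚ A, K ≤ Ω → FiniteDimensional ℚ K := fun K hKΩ =>
    Module.Finite.of_injective (IntermediateField.inclusion hKΩ).toLinearMap
      (IntermediateField.inclusion hKΩ).injective
  have hle : ∀ K : IntermediateField ℚ A, K ≤ Ω → gal F Ω ≤ gal F K := by
    intro K hKΩ γ hγ
    rw [Subgroup.mem_subgroupOf] at hγ ⊢
    exact IntermediateField.fixingSubgroup_antitone hKΩ hγ
  have key : ∀ (E' : Type) [Field E'] [NumberField E'] [Algebra E E'] (r : Type) [Fintype r]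
      [DecidableEq r] (ρ : F.fixingSubgroup →* Matrix r r E'), (∀ γ ∈ gal F Ω, ρ γ = 1) →
      Ratio M.toRealizations W (m : ℂ) ((m + 1 : ℤ) : ℂ) ρ := by
    intro E' _ _ _ r _ _ ρ hρ
    refine const_all M.toRealizations (gal F Ω) hW (ex_all M hm Ω hΩ h) (rels M hm Ω hΩ h) ?_ ρ hρ
    intro l hl
    obtain ⟨k, i1, i2, i3, K, i4, i5, ψ, hFK, hKΩ, hlK, hψ, h1⟩ := hS l hl
    have := hfd K hKΩ
    rw [formula_iff delta hc hF M K hFK, ← card_quot F K hFK,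
      formula_iff_ratio delta hc hF M hm hδ] at h1
    refine ⟨k, i1, i2, i3, _, i4, i5, induced (gal F K) ψ, fun γ hγ =>
      induced_trivial (gal F Ω) (gal F K) (hle K hKΩ) ψ
        (fun γ hγ => hψ γ (Subgroup.mem_subgroupOf.1 hγ)) γ hγ, ?_, h1⟩
    rw [card_quot F K hFK]
    exact hlK
  intro E' _ _ _
  refine ⟨fun r _ _ ρ hρ => (formula_iff_ratio delta hc hF M hm hδ ρ).2
    (key E' r ρ fun γ hγ => hρ γ (Subgroup.mem_subgroupOf.1 hγ)), fun K hFK hKΩ _ _ ψ hψ => ?_⟩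
  have := hfd K hKΩ
  rw [formula_iff delta hc hF M K hFK, ← card_quot F K hFK,
    formula_iff_ratio delta hc hF M hm hδ]
  exact key E' _ _ fun γ hγ => induced_trivial (gal F Ω) (gal F K) (hle K hKΩ) ψ
    (fun γ hγ => hψ γ (Subgroup.mem_subgroupOf.1 hγ)) γ hγ

end

end Pool.Agent.Helper51K9.UC
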