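import Pool.Agent.Helper51K9.TI.Mot

/-!
# The ratio of two successive critical values as a class modulo the field of coefficients
-/

set_option autoImplicit false

namespace Pool.Agent.Helper51K9.UC

open Matrix Polynomial Filter Topology NumberField IsDedekindDomain TI

variable {A : Type} [Field A] [CharZero A] {F : IntermediateField ℚ A} {E : Type} [Field E] {n : ℕ}
  (M : Motive F E n)

section

variable {E' : Type} [Field E'] [Algebra E E'] {r : Type} [Fintype r] [DecidableEq r]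

/-- `R τ` is the quotient `L(m, M ⊗ ρ, τ) / L(m + 1, M ⊗ ρ, τ)` of the values of the completed
L-function of `M ⊗ ρ` for the embedding `τ` of the coefficients; both values are finite and nonzero -/
def IsRatio (m : ℤ) (ρ : F.fixingSubgroup →* Matrix r r E') (R : (E' →+* ℂ) → ℂ) : Prop :=
  ∃ Λ, IsCompletedLFunction M ρ Λ ∧ ∀ τ : E' →+* ℂ, ∃ a a' : ℂ, a ≠ 0 ∧ a' ≠ 0 ∧
    Tendsto (Λ τ) (𝓝[≠] (m : ℂ)) (𝓝 a) ∧ Tendsto (Λ τ) (𝓝[≠] ((m + 1 : ℤ) : ℂ)) (𝓝 a') ∧
    R τ = a / a'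

/-- `R = R'` in `(E' ⊗ ℂ)^× / E'^×` -/
def SameClass (R R' : (E' →+* ℂ) → ℂ) : Prop :=
  ∃ e : E', e ≠ 0 ∧ ∀ τ : E' →+* ℂ, R τ = τ e * R' τ

end

/-- **The hypothesis: the ratio does not change under twists by characters.** For all the fields `K`
between `F` and `Ω` such that the Galois group of `Ω` over `K` is nilpotent, and all characters `ψ` of
this Galois group with values in number fields `E'` that contain `E`, the L-functions of `M_K ⊗ ψ`
and `M_K`, that is of `M ⊗ Ind ψ` and `M ⊗ Ind 1`, exist, have finite nonzero values at `m` and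
`m + 1`, and `L(m, M_K ⊗ ψ) / L(m + 1, M_K ⊗ ψ) = L(m, M_K) / L(m + 1, M_K)` in
`(E' ⊗ ℂ)^× / E'^×`. -/
def TwistInvariance (m : ℤ) (Ω : IntermediateField ℚ A) [(gal F Ω).Normal] : Prop :=
  ∀ (E' : Type) [Field E'] [NumberField E'] [Algebra E E'] (K : IntermediateField ℚ A),
    F ≤ K → K ≤ Ω → Group.IsNilpotent ((gal F K).map (QuotientGroup.mk' (gal F Ω))) →
    ∀ [Fintype (F.fixingSubgroup ⧸ gal F K)] [DecidableEq (F.fixingSubgroup ⧸ gal F K)]
      (ψ : gal F K →* E'ˣ), (∀ γ : gal F K, ((γ : F.fixingSubgroup) : A ≃ₐ[ℚ] A) ∈ Ω.fixingSubgroup →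
        ψ γ = 1) →
      HasL M.toRealizations (induced (gal F K) ψ) ∧
      ∃ R R₁ : (E' →+* ℂ) → ℂ, IsRatio M m (induced (gal F K) ψ) R ∧
        IsRatio M m (induced (gal F K) (1 : gal F K →* E'ˣ)) R₁ ∧ SameClass R R₁

/-- **The conclusion**: for all representations `ρ` of the Galois group of `Ω` over `F` with values in
number fields `E'` that contain `E`, the L-functions of `M ⊗ ρ` and `M` exist, have finite nonzero
values at `m` and `m + 1`, and
`L(m, M ⊗ ρ) / L(m + 1, M ⊗ ρ) = (L(m, M) / L(m + 1, M)) ^ dim ρ` in `(E' ⊗ ℂ)^× / E'^×`. -/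
def Powers (m : ℤ) (Ω : IntermediateField ℚ A) : Prop :=
  ∀ (E' : Type) [Field E'] [NumberField E'] [Algebra E E'] (r : Type) [Fintype r] [DecidableEq r]
    (ρ : F.fixingSubgroup →* Matrix r r E'), TrivialOn Ω ρ → HasL M.toRealizations ρ ∧
      ∃ R R₁ : (E' →+* ℂ) → ℂ, IsRatio M m ρ R ∧
        IsRatio M m (1 : F.fixingSubgroup →* Matrix (Fin 1) (Fin 1) E') R₁ ∧
        SameClass R (fun τ => R₁ τ ^ Fintype.card r)

/-- **Deligne's formula for some twists**: for every prime number `ℓ` there are a field `K` between `F`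
and `Ω` whose degree over `F` is prime to `ℓ` and a character `ψ` of the Galois group of `Ω` over `K`
such that `M_K ⊗ ψ` satisfies Deligne's formula over `K` (for example `K = F` and `ψ = 1`, for all
`ℓ`; or `ψ = 1` and `K` the fixed field of an `ℓ`-Sylow subgroup of the Galois group of `Ω`) -/
def SomeFormulas (ι : A →+* ℂ) (c : A ≃ₐ[ℚ] A) (m : ℤ) (Ω : IntermediateField ℚ A) : Prop :=
  ∀ l : ℕ, l.Prime → ∃ (E' : Type) (_ : Field E') (_ : NumberField E') (_ : Algebra E E')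
    (K : IntermediateField ℚ A) (_ : Fintype (F.fixingSubgroup ⧸ gal F K))
    (_ : DecidableEq (F.fixingSubgroup ⧸ gal F K)) (ψ : gal F K →* E'ˣ), F ≤ K ∧ K ≤ Ω ∧
    ¬ l ∣ IntermediateField.relfinrank F K ∧
    (∀ γ : gal F K, ((γ : F.fixingSubgroup) : A ≃ₐ[ℚ] A) ∈ Ω.fixingSubgroup → ψ γ = 1) ∧
    RatioFormula M ι c m K n (induced (gal F K) ψ)

/-- **Deligne's formula for all twists and all fields.** -/
def AllFormulas (ι : A →+* ℂ) (c : A ≃ₐ[ℚ] A) (m : ℤ) (Ω : IntermediateField ℚ A) : Prop :=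
  ∀ (E' : Type) [Field E'] [NumberField E'] [Algebra E E'],
    (∀ (r : Type) [Fintype r] [DecidableEq r] (ρ : F.fixingSubgroup →* Matrix r r E'),
      TrivialOn Ω ρ → RatioFormula M ι c m F (n * Fintype.card r) ρ) ∧
    ∀ (K : IntermediateField ℚ A), F ≤ K → K ≤ Ω →
      ∀ [Fintype (F.fixingSubgroup ⧸ gal F K)] [DecidableEq (F.fixingSubgroup ⧸ gal F K)]
        (ψ : gal F K →* E'ˣ), (∀ γ : gal F K, ((γ : F.fixingSubgroup) : A ≃ₐ[ℚ] A) ∈
          Ω.fixingSubgroup → ψ γ = 1) → RatioFormula M ι c m K n (induced (gal F K) ψ)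

end Pool.Agent.Helper51K9.UC
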