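import Pool.Agent.Helper51K9.UC.Grp
import Pool.Agent.Helper51K9.TI.Ind

/-!
# The quotient of two values of the L-function, up to the field of coefficients
-/

set_option autoImplicit false
set_option linter.unusedSectionVars false

namespace Pool.Agent.Helper51K9.UC

open Matrix Polynomial Filter Topology Pool.Agent.R389 Pool.Agent.H541R3.ART TI

variable {Γ : Type} [Group Γ] {E : Type} [Field E] {n : ℕ} {P : Type} (M : Realizations Γ E n P)

section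

variable {E' : Type} [Field E'] [Algebra E E'] {r r' : Type} [Fintype r] [DecidableEq r]
  [Fintype r'] [DecidableEq r'] {ρ : Γ →* Matrix r r E'} {ρ' : Γ →* Matrix r' r' E'}

/-- the L-function of `M ⊗ ρ` exists, its values at `z` and `z'` are finite and nonzero, and `w` is
their quotient -/
def Quo (z z' : ℂ) (ρ : Γ →* Matrix r r E') (w : (E' →+* ℂ) → ℂ) : Prop :=
  ∃ L, IsLFunction M ρ L ∧ (∀ τ, ∃ b : ℝ, ∀ s : ℂ, b < s.re → L τ s ≠ 0) ∧
    ∀ τ : E' →+* ℂ, ∃ a a' : ℂ, a ≠ 0 ∧ a' ≠ 0 ∧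
      Tendsto (L τ) (𝓝[≠] z) (𝓝 a) ∧ Tendsto (L τ) (𝓝[≠] z') (𝓝 a') ∧ w τ = a / a'

variable {z z' : ℂ}

theorem Quo.ne {w : (E' →+* ℂ) → ℂ} (h : Quo M z z' ρ w) (τ : E' →+* ℂ) : w τ ≠ 0 := by
  obtain ⟨L, -, -, h1⟩ := h
  obtain ⟨a, a', h2, h3, -, -, h4⟩ := h1 τ
  rw [h4]
  exact div_ne_zero h2 h3

theorem Quo.hasL {w : (E' →+* ℂ) → ℂ} (h : Quo M z z' ρ w) : HasL M ρ := by
  obtain ⟨L, hL, hz, -⟩ := h
  exact ⟨L, hL, hz⟩

theorem Quo.unique [Algebra.IsAlgebraic E E'] {w w' : (E' →+* ℂ) → ℂ} (h : Quo M z z' ρ w)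
    (h' : Quo M z z' ρ w') (τ : E' →+* ℂ) : w τ = w' τ := by
  obtain ⟨L, hL, -, h1⟩ := h
  obtain ⟨L', hL', -, h1'⟩ := h'
  obtain ⟨a, a', h2, h3, h4, h5, h6⟩ := h1 τ
  obtain ⟨b, b', k2, k3, k4, k5, k6⟩ := h1' τ
  have e1 := tendsto_nhds_unique (h4.congr' (hL.eventuallyEq M hL' τ z)) k4
  have e2 := tendsto_nhds_unique (h5.congr' (hL.eventuallyEq M hL' τ z')) k5
  rw [h6, k6, e1, e2]

theorem Quo.dsum {w w' : (E' →+* ℂ) → ℂ} (h : Quo M z z' ρ w) (h' : Quo M z z' ρ' w') :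
    Quo M z z' (TI.dsum ρ ρ') (fun τ => w τ * w' τ) := by
  obtain ⟨L, hL, hz, h1⟩ := h
  obtain ⟨L', hL', hz', h1'⟩ := h'
  refine ⟨_, hL.mul M hL', fun τ => ?_, fun τ => ?_⟩
  · obtain ⟨b, hb⟩ := hz τ
    obtain ⟨b', hb'⟩ := hz' τ
    exact ⟨max b b', fun s hs => mul_ne_zero (hb s (lt_of_le_of_lt (le_max_left _ _) hs))
      (hb' s (lt_of_le_of_lt (le_max_right _ _) hs))⟩
  · obtain ⟨a, a', h2, h3, h4, h5, h6⟩ := h1 τ
    obtain ⟨c, c', k2, k3, k4, k5, k6⟩ := h1' τ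
    refine ⟨a * c, a' * c', mul_ne_zero h2 k2, mul_ne_zero h3 k3, h4.mul k4, h5.mul k5, ?_⟩
    change w τ * w' τ = _
    rw [h6, k6, div_mul_div_comm]

theorem Quo.iso {w : (E' →+* ℂ) → ℂ} {A : Matrix r r' E'} {B : Matrix r' r E'} (hAB : A * B = 1)
    (hBA : B * A = 1) (hA : ∀ γ, ρ γ * A = A * ρ' γ) (h : Quo M z z' ρ' w) : Quo M z z' ρ w := by
  obtain ⟨L, hL, h1⟩ := h
  exact ⟨L, hL.iso M hAB hBA hA, h1⟩

end

section

variable {E' : Type} [Field E'] [NumberField E'] [Algebra E E'] [Algebra.IsAlgebraic E E']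
  (E'' : Type) [Field E''] [NumberField E''] [Algebra E E''] [Algebra E' E'']
  [IsScalarTower E E' E''] [Algebra.IsAlgebraic E' E''] {r : Type} [Fintype r] [DecidableEq r]
  (ρ : Γ →* Matrix r r E') {z z' : ℂ}

theorem Quo.base {w : (E' →+* ℂ) → ℂ} (h : Quo M z z' ρ w) :
    Quo M z z' (baseRep E'' ρ) (fun τ => w (τ.comp (algebraMap E' E''))) := by
  obtain ⟨L, hL, hz, h1⟩ := h
  exact ⟨_, isL_base M E'' ρ hL, fun τ => hz _, fun τ => h1 _⟩

/-- the L-function of a difference -/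
theorem quo_sub {r₁ r₂ : Type} [Fintype r₁] [DecidableEq r₁]
    [Fintype r₂] [DecidableEq r₂] {ρ₁ : Γ →* Matrix r₁ r₁ E''} {ρ₂ : Γ →* Matrix r₂ r₂ E''}
    {w₁ w₂ : (E'' →+* ℂ) → ℂ} (h₁ : Quo M z z' ρ₁ w₁) (h₂ : Quo M z z' ρ₂ w₂)
    (A : Matrix (r ⊕ r₂) r₁ E'') (B : Matrix r₁ (r ⊕ r₂) E'') (hAB : A * B = 1) (hBA : B * A = 1)
    (hA : ∀ γ, dsum (baseRep E'' ρ) ρ₂ γ * A = A * ρ₁ γ) : ∃ w, Quo M z z' ρ w := by
  have : Algebra.IsAlgebraic E E'' := Algebra.IsAlgebraic.trans E E' E''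
  obtain ⟨L₁, hL₁, hz₁, h1⟩ := h₁
  obtain ⟨L₂, hL₂, hz₂, h2⟩ := h₂
  obtain ⟨Q₁, hQ₁, hP₁⟩ := hL₁
  obtain ⟨Q₂, hQ₂, hP₂⟩ := hL₂
  have hQ : ∀ p, ∃ Q₀ : E'[X], IsLocalFactor M ρ p Q₀ ∧
      Q₁ p = Q₀.map (algebraMap E' E'') * Q₂ p := by
    intro p
    have h1 := (hQ₁ p).iso M hAB hBA hA
    obtain ⟨Q, h2, h3⟩ := IsLocalFactor.div M h1 (hQ₂ p)
    obtain ⟨Q₀, h4, h5⟩ := factor_desc M E'' ρ p h2
    exact ⟨Q₀, h5, by rw [h4, h3]⟩
  choose Q₀ hQ₀ hQQ using hQ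
  choose ext hext using exists_ext E' E'' ℂ
  have hL : IsLFunction M ρ (fun τ s => L₁ (ext τ) s / L₂ (ext τ) s) := by
    refine ⟨Q₀, hQ₀, fun τ => ?_⟩
    obtain ⟨m1, b, hb⟩ := hP₁ (ext τ)
    obtain ⟨m2, b', hb'⟩ := hP₂ (ext τ)
    obtain ⟨z, hz⟩ := hz₂ (ext τ)
    refine ⟨m1.div m2, max b (max b' z), fun s hs => ?_⟩
    have hs1 : b < s.re := lt_of_le_of_lt (le_max_left _ _) hs
    have hs2 : b' < s.re := lt_of_le_of_lt ((le_max_left _ _).trans (le_max_right _ _)) hs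
    have hs3 : z < s.re := lt_of_le_of_lt ((le_max_right _ _).trans (le_max_right _ _)) hs
    have k1 := hb s hs1
    have k2 := hb' s hs2
    have k3 := hz s hs3
    have k4 : ∀ p : P, ((Q₂ p).map (ext τ)).eval ((M.norm p : ℂ) ^ (-s)) ≠ 0 := by
      intro p h0
      apply k3
      refine k2.unique ?_
      have : HasProd (fun p : P =>
          (((Q₂ p).map (ext τ)).eval ((M.norm p : ℂ) ^ (-s)))⁻¹) 0 := by
        refine hasProd_zero_of_exists_eq_zero ⟨p, ?_⟩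
        rw [h0, _root_.inv_zero]
      exact this
    have k5 : Tendsto (fun F : Finset P => (∏ p ∈ F,
        (((Q₁ p).map (ext τ)).eval ((M.norm p : ℂ) ^ (-s)))⁻¹) /
        ∏ p ∈ F, (((Q₂ p).map (ext τ)).eval ((M.norm p : ℂ) ^ (-s)))⁻¹) atTop
        (𝓝 (L₁ (ext τ) s / L₂ (ext τ) s)) := Tendsto.div k1 k2 k3
    refine k5.congr fun F => ?_
    rw [← Finset.prod_div_distrib]
    refine Finset.prod_congr rfl fun p _ => ?_
    have h6 : (Q₁ p).map (ext τ) = (Q₀ p).map τ * (Q₂ p).map (ext τ) := by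
      rw [hQQ, Polynomial.map_mul, Polynomial.map_map, hext]
    rw [h6, Polynomial.eval_mul, mul_inv, div_inv_eq_mul, mul_assoc, inv_mul_cancel₀ (k4 p),
      mul_one]
  choose a a' a1 a2 a3 a4 a5 using fun τ => h1 (ext τ)
  choose b b' b1 b2 b3 b4 b5 using fun τ => h2 (ext τ)
  refine ⟨fun τ => (a τ / b τ) / (a' τ / b' τ), _, hL, fun τ => ?_, fun τ => ⟨a τ / b τ, a' τ / b' τ,
    div_ne_zero (a1 τ) (b1 τ), div_ne_zero (a2 τ) (b2 τ), (a3 τ).div (b3 τ) (b1 τ),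
    (a4 τ).div (b4 τ) (b2 τ), rfl⟩⟩
  obtain ⟨b, hb⟩ := hz₁ (ext τ)
  obtain ⟨b', hb'⟩ := hz₂ (ext τ)
  exact ⟨max b b', fun s hs => div_ne_zero (hb s (lt_of_le_of_lt (le_max_left _ _) hs))
    (hb' s (lt_of_le_of_lt (le_max_right _ _) hs))⟩

end

section

variable [NumberField E]

/-- the induced representation for a subgroup of the quotient -/
theorem induced_ok (N : Subgroup Γ) [N.Normal] [Finite (Γ ⧸ N)] {E'' : Type} [Field E'']
    [NumberField E''] (U : Subgroup (Γ ⧸ N)) (ψ : U →* E''ˣ) :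
    ∃ (_ : Fintype (Γ ⧸ U.comap (QuotientGroup.mk' N)))
      (_ : DecidableEq (Γ ⧸ U.comap (QuotientGroup.mk' N))), N ≤ U.comap (QuotientGroup.mk' N) ∧
      (∀ γ : U.comap (QuotientGroup.mk' N), (γ : Γ) ∈ N → pull (QuotientGroup.mk' N) U ψ γ = 1) ∧
      (∀ γ ∈ N, induced (U.comap (QuotientGroup.mk' N)) (pull (QuotientGroup.mk' N) U ψ) γ = 1) ∧
      ∀ γ, (induced (U.comap (QuotientGroup.mk' N)) (pull (QuotientGroup.mk' N) U ψ) γ).trace =
        ind U (fun u => ((ψ u : E''ˣ) : E'')) (QuotientGroup.mk' N γ) := by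
  classical
  set π : Γ →* Γ ⧸ N := QuotientGroup.mk' N with hπdef
  have hπ : Function.Surjective π := QuotientGroup.mk'_surjective N
  have hker : ∀ γ, π γ = 1 ↔ γ ∈ N := fun γ => by
    rw [hπdef, QuotientGroup.mk'_apply, QuotientGroup.eq_one_iff]
  have hNU : N ≤ U.comap π := by
    intro γ hγ
    rw [Subgroup.mem_comap, (hker γ).2 hγ]
    exact U.one_mem
  have hfin : Finite (Γ ⧸ U.comap π) := by
    have h1 : Finite (Γ ⧸ N) := inferInstance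
    have h2 : N.FiniteIndex := Subgroup.finiteIndex_of_finite_quotient
    have h3 : (U.comap π).FiniteIndex := Subgroup.finiteIndex_of_le hNU
    infer_instance
  have i1 : Fintype (Γ ⧸ U.comap π) := Fintype.ofFinite _
  have hψ : ∀ γ : U.comap π, (γ : Γ) ∈ N → pull π U ψ γ = 1 := by
    intro γ hγ
    have h1 : π (γ : Γ) = 1 := (hker _).2 hγ
    change ψ _ = 1
    have h2 : ∀ x : U, (x : Γ ⧸ N) = 1 → ψ x = 1 := by
      intro x hx
      have : x = 1 := Subtype.ext hx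
      rw [this, map_one]
    exact h2 _ h1
  exact ⟨i1, inferInstance, hNU, hψ, induced_trivial N _ hNU _ hψ, fun γ =>
    trace_induced π hπ U ψ γ⟩

/-- representations with equal traces -/
theorem exists_iso (N : Subgroup Γ) [N.Normal] [Finite (Γ ⧸ N)] {E'' : Type} [Field E'']
    [NumberField E''] {r₁ r₂ : Type} [Fintype r₁] [DecidableEq r₁] [Fintype r₂] [DecidableEq r₂]
    (ρ₁ : Γ →* Matrix r₁ r₁ E'') (ρ₂ : Γ →* Matrix r₂ r₂ E'') (h₁ : ∀ γ ∈ N, ρ₁ γ = 1)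
    (h₂ : ∀ γ ∈ N, ρ₂ γ = 1) (htr : ∀ γ, (ρ₁ γ).trace = (ρ₂ γ).trace) :
    ∃ (A : Matrix r₁ r₂ E'') (B : Matrix r₂ r₁ E''), A * B = 1 ∧ B * A = 1 ∧
      ∀ γ, ρ₁ γ * A = A * ρ₂ γ := by
  classical
  have hπ : Function.Surjective (QuotientGroup.mk' N) := QuotientGroup.mk'_surjective N
  have hker : ∀ γ, QuotientGroup.mk' N γ = 1 → γ ∈ N := fun γ h => by
    rwa [QuotientGroup.mk'_apply, QuotientGroup.eq_one_iff] at h
  obtain ⟨s₁, hs₁⟩ := exists_quotient hπ ρ₁ (fun γ hγ => h₁ γ (hker γ hγ))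
  obtain ⟨s₂, hs₂⟩ := exists_quotient hπ ρ₂ (fun γ hγ => h₂ γ (hker γ hγ))
  have i2 : Fintype (Γ ⧸ N) := Fintype.ofFinite _
  obtain ⟨A, B, hAB, hBA, hA⟩ := Helper8K9.DG.IsoL.iso_fin s₁ s₂ (by
    intro g
    obtain ⟨γ, rfl⟩ := hπ g
    rw [hs₁, hs₂]
    exact htr γ)
  refine ⟨A, B, hAB, hBA, fun γ => ?_⟩
  rw [← hs₁, ← hs₂]
  exact hA _

/-- the character of a representation trivial on `N`, as a virtual character of the quotient -/
theorem exists_char (N : Subgroup Γ) [N.Normal] [Finite (Γ ⧸ N)] {E'' : Type} [Field E'']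
    [NumberField E''] {r : Type} [Fintype r] [DecidableEq r] (ρ : Γ →* Matrix r r E'')
    (h : ∀ γ ∈ N, ρ γ = 1) : ∃ (f : Γ ⧸ N → E'') (τ₀ : E'' →+* ℂ),
      (∀ γ, (ρ γ).trace = f (QuotientGroup.mk' N γ)) ∧
      (fun g => τ₀ (f g)) ∈ AddSubgroup.closure (Irr (Γ ⧸ N)) := by
  classical
  have hπ : Function.Surjective (QuotientGroup.mk' N) := QuotientGroup.mk'_surjective N
  have hker : ∀ γ, QuotientGroup.mk' N γ = 1 → γ ∈ N := fun γ h => by
    rwa [QuotientGroup.mk'_apply, QuotientGroup.eq_one_iff] at h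
  obtain ⟨s, hs⟩ := exists_quotient hπ ρ (fun γ hγ => h γ (hker γ hγ))
  obtain ⟨τ₀⟩ : Nonempty (E'' →+* ℂ) := inferInstance
  refine ⟨(toRep s).character, τ₀, fun γ => ?_, ?_⟩
  · rw [toRep_character, hs]
  · have h1 := base_change τ₀ (toRep s)
    exact (AddSubmonoid.closure_le (S := (AddSubgroup.closure (Irr (Γ ⧸ N))).toAddSubmonoid)).2
      (fun x hx => AddSubgroup.subset_closure hx) h1

/-- **Existence of all the L-functions.** -/
theorem quo_all (N : Subgroup Γ) [N.Normal] [Finite (Γ ⧸ N)] {z z' : ℂ}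
    (h : ∀ (E' : Type) [Field E'] [NumberField E'] [Algebra E E'] (U : Subgroup Γ), N ≤ U →
      Group.IsNilpotent (U.map (QuotientGroup.mk' N)) → ∀ [Fintype (Γ ⧸ U)] [DecidableEq (Γ ⧸ U)]
      (ψ : U →* E'ˣ), (∀ γ : U, (γ : Γ) ∈ N → ψ γ = 1) → ∃ w, Quo M z z' (induced U ψ) w)
    {E' : Type} [Field E'] [NumberField E'] [Algebra E E'] {r : Type} [Fintype r] [DecidableEq r]
    (ρ : Γ →* Matrix r r E') (hρ : ∀ γ ∈ N, ρ γ = 1) : ∃ w, Quo M z z' ρ w := by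
  classical
  have hne : NeZero (Monoid.exponent (Γ ⧸ N)) := ⟨Monoid.exponent_ne_zero_of_finite⟩
  obtain ⟨E'', _, _, _, _, _, _, ζ, hζ⟩ := exists_field E E' (Monoid.exponent (Γ ⧸ N))
  have a2 : Algebra.IsAlgebraic E E' := by
    have : FiniteDimensional E E' := Module.Finite.of_restrictScalars_finite ℚ E E'
    exact Algebra.IsAlgebraic.of_finite E E'
  have hπ : Function.Surjective (QuotientGroup.mk' N) := QuotientGroup.mk'_surjective N
  let T : Set ((Γ ⧸ N) → E'') := {f | ∃ (k : Type) (_ : Fintype k) (_ : DecidableEq k)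
    (s : Γ →* Matrix k k E''), (∀ γ ∈ N, s γ = 1) ∧
      (∀ γ, (s γ).trace = f (QuotientGroup.mk' N γ)) ∧ ∃ w, Quo M z z' s w}
  have hadd : ∀ a ∈ T, ∀ b ∈ T, a + b ∈ T := by
    rintro a ⟨k, _, _, s, h1, h2, w, h3⟩ b ⟨k', _, _, s', h1', h2', w', h3'⟩
    refine ⟨k ⊕ k', inferInstance, inferInstance, dsum s s', fun γ hγ => ?_, fun γ => ?_,
      _, h3.dsum M h3'⟩
    · rw [dsum_apply, h1 γ hγ, h1' γ hγ, fromBlocks_one]
    · rw [trace_dsum, h2, h2', Pi.add_apply]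
  have hind : ∀ (U : Subgroup (Γ ⧸ N)) (ψ : U →* E''ˣ), Group.IsNilpotent U →
      ind U (fun u => ((ψ u : E''ˣ) : E'')) ∈ T := by
    intro U ψ hU
    obtain ⟨i1, i2, hNU, hψ, h1, h2⟩ := induced_ok N U ψ
    have hmap : (U.comap (QuotientGroup.mk' N)).map (QuotientGroup.mk' N) = U :=
      Subgroup.map_comap_eq_self_of_surjective hπ U
    exact ⟨_, i1, i2, _, h1, h2, h E'' _ hNU (by rw [hmap]; exact hU) _ hψ⟩
  have hbase : ∀ γ ∈ N, baseRep E'' ρ γ = 1 := fun γ hγ => by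
    change (ρ γ).map (algebraMap E' E'') = 1
    rw [hρ γ hγ, Matrix.map_one _ (map_zero _) (map_one _)]
  obtain ⟨f, τ₀, hf1, hf2⟩ := exists_char N (baseRep E'' ρ) hbase
  obtain ⟨a, ⟨n₁, _, _, ρ₁, h1, h2, w₁, h3⟩, b, ⟨n₂, _, _, ρ₂, k1, k2, w₂, k3⟩, hab⟩ :=
    RG.brauer_field hζ τ₀ T hadd hind f hf2
  obtain ⟨A, B, hAB, hBA, hA⟩ := exists_iso N (dsum (baseRep E'' ρ) ρ₂) ρ₁ (fun γ hγ => by
    rw [dsum_apply, k1 γ hγ, hbase γ hγ, fromBlocks_one]) h1 (fun γ => by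
      rw [trace_dsum, h2, k2, hf1, ← hab, Pi.add_apply])
  exact quo_sub M E'' ρ h3 k3 A B hAB hBA hA

/-- the trivial representation of dimension `d + 1` -/
theorem quo_triv {z z' : ℂ} {E'' : Type} [Field E''] [Algebra E E'']
    {w : (E'' →+* ℂ) → ℂ} (h : Quo M z z' (1 : Γ →* Matrix (Fin 1) (Fin 1) E'') w) (d : ℕ) :
    ∃ (k : Type) (_ : Fintype k) (_ : DecidableEq k) (s : Γ →* Matrix k k E''),
      (∀ γ, s γ = 1) ∧ (∀ γ, (s γ).trace = (d : E'') + 1) ∧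
      Quo M z z' s (fun τ => w τ ^ (d + 1)) := by
  induction d with
  | zero =>
    refine ⟨Fin 1, inferInstance, inferInstance, 1, fun γ => rfl, fun γ => ?_, ?_⟩
    · rw [MonoidHom.one_apply, Matrix.trace_one, Fintype.card_fin]
      simp
    · simpa using h
  | succ d ih =>
    obtain ⟨k, _, _, s, h1, h2, h3⟩ := ih
    refine ⟨k ⊕ Fin 1, inferInstance, inferInstance, dsum s 1, fun γ => ?_, fun γ => ?_, ?_⟩
    · rw [dsum_apply, h1, MonoidHom.one_apply, fromBlocks_one]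
    · rw [trace_dsum, h2, MonoidHom.one_apply, Matrix.trace_one, Fintype.card_fin]
      push_cast
      ring
    · have := h3.dsum M h
      simpa only [pow_succ] using this

/-- **The relations for all representations.** -/
theorem rel_all (N : Subgroup Γ) [N.Normal] [Finite (Γ ⧸ N)] {z z' : ℂ}
    (h : ∀ (E' : Type) [Field E'] [NumberField E'] [Algebra E E'] (U : Subgroup Γ), N ≤ U →
      Group.IsNilpotent (U.map (QuotientGroup.mk' N)) → ∀ [Fintype (Γ ⧸ U)] [DecidableEq (Γ ⧸ U)]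
      (ψ : U →* E'ˣ), (∀ γ : U, (γ : Γ) ∈ N → ψ γ = 1) → ∃ w w₁, Quo M z z' (induced U ψ) w ∧
        Quo M z z' (induced U (1 : U →* E'ˣ)) w₁ ∧ ∃ e : E', e ≠ 0 ∧ ∀ τ, w τ = τ e * w₁ τ)
    {E' : Type} [Field E'] [NumberField E'] [Algebra E E'] {r : Type} [Fintype r] [DecidableEq r]
    (ρ : Γ →* Matrix r r E') (hρ : ∀ γ ∈ N, ρ γ = 1) {w w₁ : (E' →+* ℂ) → ℂ}
    (hw : Quo M z z' ρ w) (hw₁ : Quo M z z' (1 : Γ →* Matrix (Fin 1) (Fin 1) E') w₁) :
    ∃ e : E', e ≠ 0 ∧ ∀ τ, w τ = τ e * w₁ τ ^ Fintype.card r := by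
  classical
  have hne : NeZero (Monoid.exponent (Γ ⧸ N)) := ⟨Monoid.exponent_ne_zero_of_finite⟩
  obtain ⟨E'', _, _, _, _, _, _, ζ, hζ⟩ := exists_field E E' (Monoid.exponent (Γ ⧸ N))
  have a2 : Algebra.IsAlgebraic E E' := by
    have : FiniteDimensional E E' := Module.Finite.of_restrictScalars_finite ℚ E E'
    exact Algebra.IsAlgebraic.of_finite E E'
  have a3 : Algebra.IsAlgebraic E E'' := Algebra.IsAlgebraic.trans E E' E''
  have hπ : Function.Surjective (QuotientGroup.mk' N) := QuotientGroup.mk'_surjective N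
  let T : Set (((Γ ⧸ N) → E'') × ((Γ ⧸ N) → E'')) := {p | ∃ (k : Type) (_ : Fintype k)
    (_ : DecidableEq k) (s : Γ →* Matrix k k E'') (k' : Type) (_ : Fintype k')
    (_ : DecidableEq k') (s' : Γ →* Matrix k' k' E''), (∀ γ ∈ N, s γ = 1) ∧ (∀ γ ∈ N, s' γ = 1) ∧
      (∀ γ, (s γ).trace = p.1 (QuotientGroup.mk' N γ)) ∧
      (∀ γ, (s' γ).trace = p.2 (QuotientGroup.mk' N γ)) ∧
      ∃ w w', Quo M z z' s w ∧ Quo M z z' s' w' ∧ ∃ e : E'', e ≠ 0 ∧ ∀ τ, w τ = τ e * w' τ}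
  have hadd : ∀ a ∈ T, ∀ b ∈ T, a + b ∈ T := by
    rintro a ⟨k, _, _, s, k', _, _, s', h1, h2, h3, h4, u, u', h5, h6, e, he, h7⟩
      b ⟨l, _, _, t, l', _, _, t', h1', h2', h3', h4', v, v', h5', h6', e', he', h7'⟩
    refine ⟨k ⊕ l, inferInstance, inferInstance, dsum s t, k' ⊕ l', inferInstance, inferInstance,
      dsum s' t', fun γ hγ => ?_, fun γ hγ => ?_, fun γ => ?_, fun γ => ?_, _, _, h5.dsum M h5',
      h6.dsum M h6', e * e', mul_ne_zero he he', fun τ => ?_⟩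
    · rw [dsum_apply, h1 γ hγ, h1' γ hγ, fromBlocks_one]
    · rw [dsum_apply, h2 γ hγ, h2' γ hγ, fromBlocks_one]
    · rw [trace_dsum, h3, h3']; rfl
    · rw [trace_dsum, h4, h4']; rfl
    · rw [h7, h7', map_mul]
      ring
  have hswap : ∀ a ∈ T, a.swap ∈ T := by
    rintro a ⟨k, i1, i2, s, k', i3, i4, s', h1, h2, h3, h4, u, u', h5, h6, e, he, h7⟩
    refine ⟨k', i3, i4, s', k, i1, i2, s, h2, h1, h4, h3, u', u, h6, h5, e⁻¹, inv_ne_zero he,
      fun τ => ?_⟩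
    rw [h7, map_inv₀, inv_mul_cancel_left₀ ((map_ne_zero τ).2 he)]
  have hind : ∀ (U : Subgroup (Γ ⧸ N)) (ψ : U →* E''ˣ), Group.IsNilpotent U →
      (ind U (fun u => ((ψ u : E''ˣ) : E'')), ind U (fun _ => 1)) ∈ T := by
    intro U ψ hU
    obtain ⟨i1, i2, hNU, hψ, h1, h2⟩ := induced_ok N U ψ
    obtain ⟨i3, i4, -, hψ', h1', h2'⟩ := induced_ok N U (1 : U →* E''ˣ)
    have e3 : i3 = i1 := Subsingleton.elim _ _
    have e4 : i4 = i2 := Subsingleton.elim _ _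
    subst e3
    subst e4
    have hmap : (U.comap (QuotientGroup.mk' N)).map (QuotientGroup.mk' N) = U :=
      Subgroup.map_comap_eq_self_of_surjective hπ U
    have h3 := h E'' _ hNU (by rw [hmap]; exact hU) _ hψ
    refine ⟨_, i3, i4, _, _, i3, i4, _, h1, h1', h2, fun γ => ?_, h3⟩
    rw [h2' γ]
    simp only [MonoidHom.one_apply, Units.val_one]
  have hbase : ∀ γ ∈ N, baseRep E'' ρ γ = 1 := fun γ hγ => by
    change (ρ γ).map (algebraMap E' E'') = 1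
    rw [hρ γ hγ, Matrix.map_one _ (map_zero _) (map_one _)]
  obtain ⟨f, τ₀, hf1, hf2⟩ := exists_char N (baseRep E'' ρ) hbase
  obtain ⟨a, b, ⟨k, _, _, s, k', _, _, s', h1, h2, h3, h4, u, u', h5, h6, e, he, h7⟩, hab⟩ :=
    deg_zero_field hζ τ₀ T hadd hswap hind f hf2
  have hfd : f 1 = Fintype.card r := by
    have h8 := hf1 1
    rw [map_one, map_one, Matrix.trace_one] at h8
    exact h8.symm
  -- the trivial representations
  have hb1 : baseRep E'' (1 : Γ →* Matrix (Fin 1) (Fin 1) E') = 1 := by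
    ext1 γ
    change ((1 : Matrix (Fin 1) (Fin 1) E')).map (algebraMap E' E'') = 1
    rw [Matrix.map_one _ (map_zero _) (map_one _)]
  have q1 := Quo.base M E'' ρ hw
  have q2 := Quo.base M E'' (1 : Γ →* Matrix (Fin 1) (Fin 1) E') hw₁
  rw [hb1] at q2
  obtain ⟨l, _, _, t, t1, t2, t3⟩ := quo_triv M q2 (Fintype.card r)
  obtain ⟨A, B, hAB, hBA, hA⟩ := exists_iso N (dsum (dsum (baseRep E'' ρ) s')
    (1 : Γ →* Matrix (Fin 1) (Fin 1) E'')) (dsum s t) (fun γ hγ => by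
      rw [dsum_apply, dsum_apply, h2 γ hγ, hbase γ hγ, MonoidHom.one_apply, fromBlocks_one,
        fromBlocks_one]) (fun γ hγ => by
      rw [dsum_apply, h1 γ hγ, t1, fromBlocks_one]) (fun γ => by
      rw [trace_dsum, trace_dsum, trace_dsum, hf1, h4, h3, t2, MonoidHom.one_apply,
        Matrix.trace_one, Fintype.card_fin, hab, hfd]
      push_cast
      ring)
  have q3 := (q1.dsum M h6).dsum M q2
  have q4 := Quo.iso M hAB hBA hA (h5.dsum M t3)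
  have key : ∀ τ : E'' →+* ℂ, w (τ.comp (algebraMap E' E'')) =
      τ e * w₁ (τ.comp (algebraMap E' E'')) ^ Fintype.card r := by
    intro τ
    have h8 := q3.unique M q4 τ
    have n1 := h6.ne M τ
    have n2 := q2.ne M τ
    rw [h7, pow_succ] at h8
    apply mul_right_cancel₀ n1
    apply mul_right_cancel₀ n2
    rw [h8]
    ring
  -- descent
  have huniq : ∀ τ σ : E'' →+* ℂ, τ.comp (algebraMap E' E'') = σ.comp (algebraMap E' E'') →
      τ e = σ e := by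
    intro τ σ hτσ
    have k1 := key τ
    have k2 := key σ
    rw [hτσ, k2] at k1
    exact (mul_right_cancel₀ (pow_ne_zero _ (hw₁.ne M _)) k1).symm
  obtain ⟨τ₁⟩ : Nonempty (E' →+* ℂ) := inferInstance
  obtain ⟨τ₂, hτ₂⟩ := exists_ext E' E'' ℂ τ₁
  obtain ⟨e', he'⟩ : ∃ a : E', algebraMap E' E'' a = e := by
    let _ : Algebra E' ℂ := τ₁.toAlgebra
    refine mem_of_conj (K := ℂ) e (τ₂ e) fun j => ?_
    have h1 : (j : E'' →+* ℂ).comp (algebraMap E' E'') = τ₁ := RingHom.ext fun x => j.commutes x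
    exact huniq (j : E'' →+* ℂ) τ₂ (by rw [h1, hτ₂])
  refine ⟨e', ?_, fun τ => ?_⟩
  · rintro rfl
    exact he (by rw [← he', map_zero])
  · obtain ⟨τ', hτ'⟩ := exists_ext E' E'' ℂ τ
    have k1 := key τ'
    rw [hτ', ← he'] at k1
    rw [k1, ← hτ']
    rfl

end

end Pool.Agent.Helper51K9.UC
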